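import Pool.Agent.Q96.HE.Lgt

/-!
Project SF of helper103, job SF-G1 (Picard theorem for curves of genus `≥ 2`): the functions and the
form on the curve, and the estimate at a place of an extension field.
-/

set_option autoImplicit false

namespace Pool.Agent.Q285.SFG

open FF
open Pool.Agent.W602.GT
open Pool.Agent.W603.LV
open Pool.Agent.Q96.HE (pluri_smul)

section curve

variable {E : Type} [Field E] [Algebra ℂ E] [IsFF ℂ E]

/-- the order of a regular form -/
theorem ord_reg_form {N : ℕ} {ω : (Fin 1 → Derivation ℂ E E) → E} (hω : IsPluri N ω)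
    (P : Place ℂ E) {D : Derivation ℂ E E} (hD : D ≠ 0) (hreg : RegAt P ω) :
    Ge P (N * vo P D) (ω fun _ => D) := by
  by_cases h0 : ω (fun _ => D) = 0
  · exact Or.inl h0
  have hπ := ord_unif P
  have hDπ : D (unif P) ≠ 0 := der_pi_ne_zero hD P hπ
  set D' : Derivation ℂ E E := (D (unif P))⁻¹ • D with hD'
  have hD'π : D' (unif P) = 1 := by
    rw [hD', Derivation.coe_smul, Pi.smul_apply, smul_eq_mul, inv_mul_cancel₀ hDπ]
  have hr : DerReg P D' := fun f hf => der_reg P hπ D' hD'π hf
  have h1 := hreg (fun _ => D') (fun _ => hr)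
  have e1 : ω (fun _ => D') = (D (unif P))⁻¹ ^ N * ω (fun _ => D) := pluri_smul hω _ _
  rw [e1] at h1
  right
  have h2 := (P.reg_iff (mul_ne_zero (pow_ne_zero _ (inv_ne_zero hDπ)) h0)).1 h1
  rw [P.ord_mul (pow_ne_zero _ (inv_ne_zero hDπ)) h0, P.ord_pow, P.ord_inv] at h2
  unfold vo
  linarith

omit [IsFF ℂ E] in
theorem unif_ne_zero (P : Place ℂ E) : unif P ≠ 0 := by
  intro h
  have := ord_unif P
  rw [h, P.ord_zero] at this
  omega

/-- the functions and the form on a curve of general type -/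
theorem exists_data (h : GeneralType ℂ E 1) :
    ∃ (n N' : ℕ) (u : Fin (n + 1) → E) (s x : E), u 0 = 1 ∧ (∀ i, u i ≠ 0) ∧ s ≠ 0 ∧
      Transcendental ℂ x ∧ (∃ i, u i = x) ∧
      (∀ (P : Place ℂ E) (i : Fin (n + 1)), N' * vo P (der ℂ E) ≤ P.ord (s * u i)) ∧
      (∀ P : Place ℂ E, ∃ j, der ℂ E (u j) ≠ 0 ∧
        P.ord (der ℂ E (u j) / u j) ≤ vo P (der ℂ E)) := by
  classical
  obtain ⟨-, N, hN, ω, hpl, hreg, D, hD0, hai⟩ := h
  have hder : der ℂ E ≠ 0 := der_ne
  set D0 := der ℂ E with hD0d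
  obtain ⟨r, hr⟩ := der_smul (D' := D 0) hder
  have hDr : D = fun _ => r • D0 := by
    funext i
    rw [Subsingleton.elim i 0, hr]
  have hval : ∀ j, ω j D = r ^ N * ω j (fun _ => D0) := by
    intro j
    rw [hDr]
    exact pluri_smul (hpl j) _ _
  have hr0 : r ^ N ≠ 0 := by
    intro h
    apply hD0
    rw [hval, h, zero_mul]
  have hg0 : ω 0 (fun _ => D0) ≠ 0 := by
    intro h
    apply hD0
    rw [hval, h, mul_zero]
  have htr : Transcendental ℂ (ω 1 (fun _ => D0) / ω 0 (fun _ => D0)) := by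
    rw [algebraicIndependent_unique_type_iff] at hai
    have h1 : ω (Fin.succ default) D / ω 0 D = ω 1 (fun _ => D0) / ω 0 (fun _ => D0) := by
      rw [hval, hval, mul_div_mul_left _ _ hr0]
      rfl
    rw [h1] at hai
    exact hai
  have hge : ∀ j P, Ge P (N * vo P D0) (ω j fun _ => D0) := fun j P =>
    ord_reg_form (hpl j) P hder (hreg P (Pool.Agent.Q96.HE.divisorial_one P) j)
  -- a form which vanishes at a given place
  have hvan : ∀ P : Place ℂ E, ∃ g : E, g ≠ 0 ∧ N * vo P D0 + 1 ≤ P.ord g ∧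
      ∀ Q : Place ℂ E, N * vo Q D0 ≤ Q.ord g := by
    intro P
    by_cases h1 : N * vo P D0 + 1 ≤ P.ord (ω 0 fun _ => D0)
    · exact ⟨_, hg0, h1, fun Q => (hge 0 Q).resolve_left hg0⟩
    · have h2 := (hge 0 P).resolve_left hg0
      have h3 : P.ord (ω 0 fun _ => D0) = N * vo P D0 := by
        rw [not_le] at h1
        exact le_antisymm (Int.lt_add_one_iff.1 h1) h2
      have h4 : Ge P 0 (ω 1 (fun _ => D0) / ω 0 (fun _ => D0)) := by
        by_cases h5 : ω 1 (fun _ => D0) = 0
        · left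
          rw [h5, zero_div]
        · right
          rw [P.ord_div h5 hg0, h3]
          have := (hge 1 P).resolve_left h5
          linarith
      obtain ⟨c, hc⟩ := exists_const P h4
      have hne : ω 1 (fun _ => D0) / ω 0 (fun _ => D0) - algebraMap ℂ E c ≠ 0 := by
        intro h6
        apply htr
        rw [sub_eq_zero.1 h6]
        exact isAlgebraic_algebraMap c
      refine ⟨ω 0 (fun _ => D0) * (ω 1 (fun _ => D0) / ω 0 (fun _ => D0) - algebraMap ℂ E c),
        mul_ne_zero hg0 hne, ?_, fun Q => ?_⟩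
      · rw [P.ord_mul hg0 hne, h3]
        have := hc.resolve_left hne
        linarith
      · have e : ω 0 (fun _ => D0) *
            (ω 1 (fun _ => D0) / ω 0 (fun _ => D0) - algebraMap ℂ E c) =
            ω 1 (fun _ => D0) - algebraMap ℂ E c * ω 0 (fun _ => D0) := by
          field_simp
        have h8 : Ge Q (N * vo Q D0) (algebraMap ℂ E c * ω 0 (fun _ => D0)) := by
          have := (Ge.const (P := Q) c).mul (hge 0 Q)
          rwa [zero_add] at this
        have h7 := (hge 1 Q).sub h8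
        rw [← e] at h7
        exact h7.resolve_left (mul_ne_zero hg0 hne)
  choose hf hf0 hfP hfQ using hvan
  -- the functions
  obtain ⟨x, hx⟩ := IsFF.exists_transcendental (k := ℂ) (K := E)
  have hDx : D0 x ≠ 0 := der_ne_zero hder hx
  have hx0 : x ≠ 0 := by
    rintro rfl
    exact hx isAlgebraic_zero
  obtain ⟨T1, hT1⟩ := exists_supp (k := ℂ) (Finset.univ : Finset (Fin 2)) ![x, D0 x]
  obtain ⟨T0, hT0⟩ : ∃ T0, T0 = T1 ∪ (vo_finite hder).toFinset := ⟨_, rfl⟩
  have hout : ∀ P, P ∉ T0 → P.ord x = 0 ∧ P.ord (D0 x) = 0 ∧ vo P D0 = 0 := by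
    intro P hP
    rw [hT0, Finset.mem_union, not_or, Set.Finite.mem_toFinset] at hP
    refine ⟨?_, ?_, ?_⟩
    · by_contra hcon
      exact hP.1 (hT1 0 (Finset.mem_univ _) P hcon)
    · by_contra hcon
      exact hP.1 (hT1 1 (Finset.mem_univ _) P hcon)
    · by_contra hcon
      exact hP.2 hcon
  obtain ⟨l, hl⟩ : ∃ l : List E, l = x :: T0.toList.map unif := ⟨_, rfl⟩
  let u : Fin (l.length + 1) → E := fun i => (1 :: l).get i
  have hmem : ∀ y ∈ l, ∃ i, u i = y := by
    intro y hy
    obtain ⟨i, hi⟩ := List.mem_iff_get.1 (List.mem_cons_of_mem 1 hy)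
    exact ⟨i, hi⟩
  have hxl : x ∈ l := by
    rw [hl]
    exact List.mem_cons_self
  have hPl : ∀ P ∈ T0, unif P ∈ l := by
    intro P hP
    rw [hl]
    exact List.mem_cons_of_mem _ (List.mem_map.2 ⟨P, Finset.mem_toList.2 hP, rfl⟩)
  have hu0 : ∀ i, u i ≠ 0 := by
    intro i
    have h1 : u i ∈ 1 :: l := List.get_mem _ _
    rw [List.mem_cons] at h1
    rcases h1 with h1 | h1
    · rw [h1]
      exact one_ne_zero
    · rw [hl, List.mem_cons] at h1
      rcases h1 with h1 | h1
      · rw [h1]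
        exact hx0
      · obtain ⟨P, -, hP⟩ := List.mem_map.1 h1
        rw [← hP]
        exact unif_ne_zero P
  -- the form
  obtain ⟨T, hT⟩ := exists_supp (k := ℂ) (Finset.univ : Finset (Fin (l.length + 1))) u
  obtain ⟨m, hm⟩ : ∃ m : ℕ, m = ∑ P ∈ T, ∑ i, (P.ord (u i)).natAbs := ⟨_, rfl⟩
  have hle : ∀ (Q : Place ℂ E) i, -(if Q ∈ T then (m : ℤ) else 0) ≤ Q.ord (u i) := by
    intro Q i
    split_ifs with hQ
    · have h1 : (Q.ord (u i)).natAbs ≤ m := by
        rw [hm]
        refine le_trans ?_ (Finset.single_le_sum (f := fun P : Place ℂ E =>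
          ∑ i, (P.ord (u i)).natAbs) (fun _ _ => Nat.zero_le _) hQ)
        exact Finset.single_le_sum (f := fun i => (Q.ord (u i)).natAbs)
          (fun _ _ => Nat.zero_le _) (Finset.mem_univ i)
      omega
    · have h1 : Q.ord (u i) = 0 := by
        by_contra hcon
        exact hQ (hT i (Finset.mem_univ _) Q hcon)
      omega
  refine ⟨l.length, T.card * (m * N), u, ∏ P ∈ T, hf P ^ m, x, rfl, hu0,
    Finset.prod_ne_zero_iff.2 fun P _ => pow_ne_zero _ (hf0 P), hx, hmem x hxl, fun Q i => ?_,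
    fun P => ?_⟩
  · have h1 : Ge Q (∑ P ∈ T, ((m : ℤ) * (N * vo Q D0) + if P = Q then (m : ℤ) else 0))
        (∏ P ∈ T, hf P ^ m) := by
      refine Ge.prod T _ _ fun P _ => ?_
      right
      rw [Q.ord_pow]
      split_ifs with hPQ
      · subst hPQ
        have := mul_le_mul_of_nonneg_left (hfP P) (Int.natCast_nonneg m)
        linarith
      · have := mul_le_mul_of_nonneg_left (hfQ P Q) (Int.natCast_nonneg m)
        linarith
    have hs0 : ∏ P ∈ T, hf P ^ m ≠ 0 :=
      Finset.prod_ne_zero_iff.2 fun P _ => pow_ne_zero _ (hf0 P)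
    have h2 := h1.resolve_left hs0
    rw [Finset.sum_add_distrib, Finset.sum_const, Finset.sum_ite_eq', nsmul_eq_mul] at h2
    rw [Q.ord_mul hs0 (hu0 i)]
    have h3 := hle Q i
    push_cast
    have e : (T.card : ℤ) * (m * N) * vo Q D0 = T.card * (m * (N * vo Q D0)) := by ring
    rw [e]
    linarith
  · by_cases hP : P ∈ T0
    · obtain ⟨j, hj⟩ := hmem _ (hPl P hP)
      have h1 : P.ord (unif P) ≠ 0 := by
        rw [ord_unif]
        exact one_ne_zero
      obtain ⟨h2, h3⟩ := ord_der P hder h1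
      refine ⟨j, ?_, ?_⟩
      · rw [hj]
        exact h2
      · rw [hj, P.ord_div h2 (unif_ne_zero P), h3, ord_unif]
        linarith
    · obtain ⟨j, hj⟩ := hmem _ hxl
      obtain ⟨h1, h2, h3⟩ := hout P hP
      refine ⟨j, ?_, ?_⟩
      · rw [hj]
        exact hDx
      · rw [hj, P.ord_div hDx hx0, h1, h2, h3, sub_zero]

end curve

section key

variable {E : Type} [Field E] [Algebra ℂ E] [IsFF ℂ E]
variable {L : Type} [Field L] [Algebra ℂ L] [Algebra E L] [IsScalarTower ℂ E L]

omit [IsFF ℂ E] in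
/-- the estimate at a place of an extension field -/
theorem key (v : Place ℂ L) {κ : L} (hκ : κ ≠ 0) {g : E} (hg : g ≠ 0) {N' : ℕ}
    (hgP : ∀ P : Place ℂ E, N' * vo P (der ℂ E) ≤ P.ord g)
    (h : (∀ f : E, v.ord (algebraMap E L f) = 0) → 0 ≤ v.ord κ)
    (h' : ∀ (P : Place ℂ E) (e : ℕ), Over v P e → 0 ≤ v.ord κ + e * vo P (der ℂ E)) :
    v.Reg (algebraMap E L g * κ ^ N') := by
  have hg' : algebraMap E L g ≠ 0 := (map_ne_zero _).2 hg
  right
  rw [v.ord_mul hg' (pow_ne_zero _ hκ), v.ord_pow]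
  by_cases hall : ∀ f : E, v.ord (algebraMap E L f) = 0
  · rw [hall, zero_add]
    exact mul_nonneg (Int.natCast_nonneg _) (h hall)
  · push Not at hall
    obtain ⟨e, P, hP⟩ := exists_over v hall
    have h1 := h' P e hP
    rw [hP.2]
    have h2 := mul_le_mul_of_nonneg_left (hgP P) (Int.natCast_nonneg e)
    have h3 := mul_nonneg (Int.natCast_nonneg N') h1
    have e1 : (N' : ℤ) * (v.ord κ + e * vo P (der ℂ E)) =
        e * (N' * vo P (der ℂ E)) + N' * v.ord κ := by ring
    rw [e1] at h3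
    linarith

end key

section chain

variable {k K K' : Type} [Field k] [CharZero k] [Field K] [Field K'] [Algebra k K] [Algebra k K']
  [Algebra K K'] [IsScalarTower k K K']

omit [CharZero k] in
theorem E2_alg (x f : K) (G : Polynomial (Polynomial k)) :
    algebraMap K K' (E2 x f G) = E2 (algebraMap K K' x) (algebraMap K K' f) G := by
  rw [E2_apply, E2_apply, Polynomial.hom_eval₂]
  congr 1
  ext c
  · simp [← IsScalarTower.algebraMap_apply]
  · simp

/-- derivations are determined by their values at one transcendental element -/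
theorem der_comp [IsFF k K] (D : Derivation k K K) (D' : Derivation k K' K') {x : K}
    (hx : Transcendental k x) (f : K) :
    D' (algebraMap K K' f) * algebraMap K K' (D x) =
      algebraMap K K' (D f) * D' (algebraMap K K' x) := by
  obtain ⟨G, hG, hG'⟩ := exists_poly hx f
  have h1 := chain D x f G
  have h2 := chain D' (algebraMap K K' x) (algebraMap K K' f) G
  rw [← E2_alg, ← E2_alg, ← E2_alg, hG, map_zero, map_zero] at h2
  rw [hG, map_zero] at h1
  have h3 : algebraMap K K' (E2 x f (Polynomial.derivative G)) ≠ 0 := (map_ne_zero _).2 hG'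
  have h4 := congrArg (algebraMap K K') h1
  rw [map_zero, map_add, map_mul, map_mul] at h4
  apply mul_left_cancel₀ h3
  linear_combination algebraMap K K' (D x) * (-h2) + D' (algebraMap K K' x) * h4

end chain

end Pool.Agent.Q285.SFG
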