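import Pool.Agent.Q103.SF.Stm1
import Pool.Agent.Q285.SFG.Curve
import Pool.Agent.Q184.EC.AnaStm
import Pool.Agent.Q149.EC.Val
import Pool.Agent.Q224.EC.Plc
import Pool.Agent.Y221.AP.Ct

/-!
Project SF of helper103, job SF-G1: the Picard theorem for curves of genus `≥ 2`.
-/

set_option autoImplicit false

namespace Pool.Agent.Q285.SFG

open FF
open Pool.Agent.W602.GT
open Pool.Agent.W603.LV
open Pool.Agent.Y221.AP (MK MDer Om MInf MI)
open Pool.Agent.Q103.EC (S_val S_ana S_plc)

/-- integrality over a subfield -/
theorem int_up {k K : Type} [Field k] [Field K] [Algebra k K] (L : IntermediateField k K)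
    (B : Set L) (C : Set K) (hBC : ∀ b ∈ B, (b : K) ∈ C) {a : L}
    (h : IsIntegral (Algebra.adjoin k B) a) : IsIntegral (Algebra.adjoin k C) (a : K) := by
  have hmem : ∀ s ∈ Algebra.adjoin k B, (s : K) ∈ Algebra.adjoin k C := by
    intro s hs
    have h1 : L.val s ∈ (Algebra.adjoin k B).map L.val := Subalgebra.mem_map.2 ⟨s, hs, rfl⟩
    rw [AlgHom.map_adjoin] at h1
    refine Algebra.adjoin_mono ?_ h1
    rintro _ ⟨t, ht, rfl⟩
    exact hBC t ht
  let j : L →+* K := algebraMap L K
  let ψ : Algebra.adjoin k B →+* Algebra.adjoin k C :=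
    (j.comp (algebraMap (Algebra.adjoin k B) L)).codRestrict (Algebra.adjoin k C)
      fun s => hmem s s.2
  exact h.map_of_comp_eq ψ j (RingHom.ext fun s => rfl)

theorem gpc (hval : S_val) (hana : S_ana) (hplc : S_plc) : Pool.Agent.Q103.SF.S_gpc := by
  classical
  intro E _ _ hess _ _ hgt
  have : IsFF ℂ E := ⟨hess, by simpa using hgt.1⟩
  obtain ⟨n, N', u, s, x, hu1, hu0, hs0, hx, ⟨i₀, hi₀⟩, hreg, hlog⟩ := exists_data hgt
  have hder : der ℂ E ≠ 0 := der_ne
  have hDx : der ℂ E x ≠ 0 := der_ne_zero hder hx
  have hMx : MDer (algebraMap E MK x) ≠ 0 := by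
    intro h
    obtain ⟨c, hc⟩ := Pool.Agent.Y221.AP.MD_zero (x := algebraMap E MK x) h
    rw [IsScalarTower.algebraMap_apply ℂ E MK] at hc
    have h1 := (algebraMap E MK).injective hc
    apply hx
    rw [h1]
    exact isAlgebraic_algebraMap c
  obtain ⟨κ, hκd⟩ : ∃ κ, κ = MDer (algebraMap E MK x) / algebraMap E MK (der ℂ E x) := ⟨_, rfl⟩
  have hιDx : algebraMap E MK (der ℂ E x) ≠ 0 := (map_ne_zero _).2 hDx
  have hκ : κ ≠ 0 := by
    rw [hκd]
    exact div_ne_zero hMx hιDx
  have hMD : ∀ f : E, MDer (algebraMap E MK f) = κ * algebraMap E MK (der ℂ E f) := by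
    intro f
    have h := der_comp (der ℂ E) MDer hx f
    rw [hκd, div_mul_eq_mul_div, eq_div_iff hιDx, h, mul_comm]
  have hsu : ∀ i, s * u i ≠ 0 := fun i => mul_ne_zero hs0 (hu0 i)
  have e1 : ∀ i, algebraMap E MK s * κ ^ N' * algebraMap E MK (u i) =
      algebraMap E MK (s * u i) * κ ^ N' := by
    intro i
    rw [map_mul]
    ring
  have hmain : ∀ i, MInf (algebraMap E MK (u i)) := by
    refine hana n (fun i => algebraMap E MK (u i)) ?_ ?_ (algebraMap E MK s * κ ^ N') ?_ ?_ ?_
    · rw [hu1, map_one]
    · exact fun i => (map_ne_zero _).2 (hu0 i)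
    · exact mul_ne_zero ((map_ne_zero _).2 hs0) (pow_ne_zero _ hκ)
    · intro i z hz
      obtain ⟨v, hv, hvD⟩ := hplc z hz
      rw [← hv, e1]
      refine key v hκ (hsu i) (fun P => hreg P i) ?_ ?_
      · intro hall
        have h1 : v.Reg (MDer (algebraMap E MK x)) := hvD _ (Or.inr (hall x).ge)
        have h2 := (v.reg_iff hMx).1 h1
        rw [hκd, v.ord_div hMx hιDx, hall, sub_zero]
        exact h2
      · intro P e hP
        have h1 : v.Reg (algebraMap E MK (unif P)) := (hP.reg).2 (Or.inr (by
          rw [ord_unif]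
          exact zero_le_one))
        have h2 := hvD _ h1
        rw [hMD] at h2
        have h3 : algebraMap E MK (der ℂ E (unif P)) ≠ 0 :=
          (map_ne_zero _).2 (der_pi_ne_zero hder P (ord_unif P))
        have h4 := (v.reg_iff (mul_ne_zero hκ h3)).1 h2
        rw [v.ord_mul hκ h3, hP.2] at h4
        exact h4
    · intro i
      rw [e1]
      obtain ⟨S0, hS0⟩ := IntermediateField.fg_top ℂ E
      obtain ⟨T, hT⟩ : ∃ T : Finset MK, T = S0.image (algebraMap E MK) ∪ {κ} := ⟨_, rfl⟩
      obtain ⟨L, hL⟩ : ∃ L : IntermediateField ℂ MK,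
        L = IntermediateField.adjoin ℂ (T : Set MK) := ⟨_, rfl⟩
      have hTL : ∀ y ∈ T, y ∈ L := by
        intro y hy
        rw [hL]
        exact IntermediateField.subset_adjoin _ _ hy
      have hκL : κ ∈ L := hTL κ (by
        rw [hT]
        exact Finset.mem_union_right _ (Finset.mem_singleton_self κ))
      have hEL : ∀ f : E, algebraMap E MK f ∈ L := by
        intro f
        have h1 : f ∈ IntermediateField.adjoin ℂ (S0 : Set E) := by
          rw [hS0]
          trivial
        refine IntermediateField.adjoin_induction ℂ (p := fun y _ => algebraMap E MK y ∈ L)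
          ?_ ?_ ?_ ?_ ?_ h1
        · intro y hy
          refine hTL _ ?_
          rw [hT]
          exact Finset.mem_union_left _ (Finset.mem_image_of_mem _ hy)
        · intro c
          rw [← IsScalarTower.algebraMap_apply]
          exact L.algebraMap_mem c
        · intro a b _ _ ha hb
          rw [map_add]
          exact L.add_mem ha hb
        · intro a _ ha
          rw [map_inv₀]
          exact L.inv_mem ha
        · intro a b _ _ ha hb
          rw [map_mul]
          exact L.mul_mem ha hb
      let j : E →+* L := (algebraMap E MK).codRestrict L hEL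
      let _ : Algebra E L := j.toAlgebra
      have : IsScalarTower ℂ E L := IsScalarTower.of_algebraMap_eq fun c => Subtype.ext (by
        change algebraMap ℂ MK c = algebraMap E MK (algebraMap ℂ E c)
        rw [← IsScalarTower.algebraMap_apply])
      have hcoe : ∀ f : E, ((algebraMap E L f : L) : MK) = algebraMap E MK f := fun f => rfl
      obtain ⟨κ', hκ'⟩ : ∃ κ' : L, (κ' : MK) = κ := ⟨⟨κ, hκL⟩, rfl⟩
      have hκ'0 : κ' ≠ 0 := by
        intro h
        apply hκ
        rw [← hκ', h]
        rfl
      have hess' : Algebra.EssFiniteType ℂ L := by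
        rw [IntermediateField.essFiniteType_iff]
        exact ⟨T, hL.symm⟩
      obtain ⟨S, hS⟩ := IntermediateField.fg_top ℂ L
      have hint := hval ℂ L S hS
        (Finset.univ.image fun j => κ' * algebraMap E L (der ℂ E (u j) / u j))
        (algebraMap E L (s * u i) * κ' ^ N') (fun v hv => by
          refine key v hκ'0 (hsu i) (fun P => hreg P i) ?_ ?_
          · intro hall
            have h1 := hv _ (Finset.mem_image_of_mem _ (Finset.mem_univ i₀))
            rw [hi₀] at h1
            have hx0 : x ≠ 0 := by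
              rw [← hi₀]
              exact hu0 i₀
            have h2 : algebraMap E L (der ℂ E x / x) ≠ 0 :=
              (map_ne_zero _).2 (div_ne_zero hDx hx0)
            have h3 := (v.reg_iff (mul_ne_zero hκ'0 h2)).1 h1
            rw [v.ord_mul hκ'0 h2, hall, add_zero] at h3
            exact h3
          · intro P e hP
            obtain ⟨m, hm1, hm2⟩ := hlog P
            have h1 := hv _ (Finset.mem_image_of_mem _ (Finset.mem_univ m))
            have h2 : algebraMap E L (der ℂ E (u m) / u m) ≠ 0 :=
              (map_ne_zero _).2 (div_ne_zero hm1 (hu0 m))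
            have h3 := (v.reg_iff (mul_ne_zero hκ'0 h2)).1 h1
            rw [v.ord_mul hκ'0 h2, hP.2] at h3
            have h4 := mul_le_mul_of_nonneg_left hm2 (Int.natCast_nonneg e)
            linarith)
      have hint2 := int_up L _ (Set.range fun j => MDer (algebraMap E MK (u j)) /
        algebraMap E MK (u j)) (fun b hb => by
          rw [Finset.mem_coe, Finset.mem_image] at hb
          obtain ⟨m, -, rfl⟩ := hb
          refine ⟨m, ?_⟩
          change MDer (algebraMap E MK (u m)) / algebraMap E MK (u m) =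
            (κ' : MK) * algebraMap E MK (der ℂ E (u m) / u m)
          rw [hMD, hκ', map_div₀, mul_div_assoc]) hint
      have e2 : ((algebraMap E L (s * u i) * κ' ^ N' : L) : MK) =
          algebraMap E MK (s * u i) * κ ^ N' := by
        rw [← hκ']
        rfl
      rw [e2] at hint2
      exact hint2
  -- all functions
  intro f
  have hxI : MInf (algebraMap E MK x) := by
    rw [← hi₀]
    exact hmain i₀
  have hle : ∀ y ∈ IntermediateField.adjoin ℂ {x}, algebraMap E MK y ∈ MI := by
    intro y hy
    refine IntermediateField.adjoin_induction ℂ (p := fun y _ => algebraMap E MK y ∈ MI)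
      ?_ ?_ ?_ ?_ ?_ hy
    · intro y hy
      rw [Set.mem_singleton_iff.1 hy]
      exact hxI
    · intro c
      rw [← IsScalarTower.algebraMap_apply]
      exact MI.algebraMap_mem c
    · intro a b _ _ ha hb
      rw [map_add]
      exact MI.add_mem ha hb
    · intro a _ ha
      rw [map_inv₀]
      exact MI.inv_mem ha
    · intro a b _ _ ha hb
      rw [map_mul]
      exact MI.mul_mem ha hb
  obtain ⟨p, hp, hpx⟩ := (IsFF.isAlgebraic hx).isAlgebraic f
  let φ : IntermediateField.adjoin ℂ {x} →+* MI :=
    ((algebraMap E MK).comp (algebraMap (IntermediateField.adjoin ℂ {x}) E)).codRestrict MI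
      fun y => hle y y.2
  apply Pool.Agent.Y221.AP.minf_of_alg
  refine ⟨p.map φ, ?_, ?_⟩
  · rw [Ne, Polynomial.map_eq_zero]
    exact hp
  · rw [Polynomial.aeval_def] at hpx
    have h1 := congrArg (algebraMap E MK) hpx
    rw [map_zero, Polynomial.hom_eval₂] at h1
    rw [Polynomial.aeval_def, Polynomial.eval₂_map, ← h1]
    rfl

/-- **Picard's theorem for curves of genus `≥ 2`** -/
theorem t_gpc : Pool.Agent.Q103.SF.S_gpc :=
  gpc Pool.Agent.Q149.EC.t_val Pool.Agent.Q184.EC.t_ana Pool.Agent.Q224.EC.t_plc

end Pool.Agent.Q285.SFG
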